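import Mathlib

set_option autoImplicit false

/-!
Distributional chaos: definitions.
-/

namespace Pool.Agent.Work.MP_890ea4_an

/-- `|A ∩ [1, t]|`. -/
noncomputable def count (A : Set ℕ) (t : ℝ) : ℕ := (A ∩ {j : ℕ | 1 ≤ j ∧ (j : ℝ) ≤ t}).ncard

/-- The lower `m_n`-density `liminf |A ∩ [1, m_n]| / n`, with values in `[0, ∞]`. -/
noncomputable def lowerDensity (m : ℕ → ℝ) (A : Set ℕ) : ENNReal :=
  Filter.liminf (fun n : ℕ => (count A (m n) : ENNReal) / (n : ENNReal)) Filter.atTop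

/-- The class `R` of increasing sequences `(m_n)`, `n ≥ 1`, in `[1, ∞)` with
`liminf m_n / n > 0`.  (The value `m 0` plays no role.) -/
structure InR (m : ℕ → ℝ) : Prop where
  mono : ∀ n n' : ℕ, 1 ≤ n → n ≤ n' → m n ≤ m n'
  one_le : ∀ n : ℕ, 1 ≤ n → 1 ≤ m n
  liminf_pos : 0 < Filter.liminf (fun n : ℕ => ENNReal.ofReal (m n) / (n : ENNReal)) Filter.atTop

/-- `T` is `m_n`-distributionally chaotic. -/
def IsDistChaotic {X : Type*} [MetricSpace X] (m : ℕ → ℝ) (T : X → X) : Prop :=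
  ∃ S : Set X, ¬ S.Countable ∧ ∃ σ : ℝ, 0 < σ ∧
    ∀ ε : ℝ, 0 < ε → ∀ x ∈ S, ∀ y ∈ S, x ≠ y →
      lowerDensity m {j : ℕ | dist (T^[j] x) (T^[j] y) < σ} = 0 ∧
      lowerDensity m {j : ℕ | ε ≤ dist (T^[j] x) (T^[j] y)} = 0

/-- There is a dense linear subspace of vectors with null orbits. -/
def HasDenseNullOrbits {𝕜 X : Type*} [NormedField 𝕜] [NormedAddCommGroup X] [NormedSpace 𝕜 X]
    (T : X →L[𝕜] X) : Prop :=
  ∃ X₀ : Submodule 𝕜 X, Dense (X₀ : Set X) ∧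
    ∀ x ∈ X₀, Filter.Tendsto (fun n : ℕ => T^[n] x) Filter.atTop (nhds 0)

end Pool.Agent.Work.MP_890ea4_an
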