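import Pool.Agent.Work.MP_890ea4_an.Defs

set_option autoImplicit false

/-!
Elementary facts on lower densities.
-/

namespace Pool.Agent.Work.MP_890ea4_an

open Filter Topology

lemma count_finite (A : Set ℕ) (t : ℝ) : (A ∩ {j : ℕ | 1 ≤ j ∧ (j : ℝ) ≤ t}).Finite := by
  refine (Set.finite_le_nat ⌊t⌋₊).subset ?_
  rintro j ⟨_, h1, h2⟩
  exact Nat.le_floor h2

lemma count_mono {A B : Set ℕ} (h : A ⊆ B) {s t : ℝ} (hst : s ≤ t) : count A s ≤ count B t := by
  refine Set.ncard_le_ncard ?_ (count_finite B t)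
  rintro j ⟨h0, h1, h2⟩
  exact ⟨h h0, h1, h2.trans hst⟩

/-- Lower bound for the count. -/
lemma le_count {A : Set ℕ} {t : ℝ} {a b : ℕ} (ha : 1 ≤ a)
    (h : ∀ j, a ≤ j → j < b → j ∈ A) (hb : (b : ℝ) ≤ t + 1) : b - a ≤ count A t := by
  have h1 : (Finset.Ico a b : Set ℕ) ⊆ A ∩ {j : ℕ | 1 ≤ j ∧ (j : ℝ) ≤ t} := by
    intro j hj
    rw [Finset.mem_coe, Finset.mem_Ico] at hj
    refine ⟨h j hj.1 hj.2, ha.trans hj.1, ?_⟩
    have : (j : ℝ) + 1 ≤ b := by exact_mod_cast hj.2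
    linarith
  have h2 := Set.ncard_le_ncard h1 (count_finite A t)
  rw [Set.ncard_coe_finset, Nat.card_Ico] at h2
  exact h2

/-- Upper bound for the count. -/
lemma count_le {A : Set ℕ} {t : ℝ} {s : Finset ℕ}
    (h : ∀ j ∈ A, 1 ≤ j → (j : ℝ) ≤ t → j ∈ s) : count A t ≤ s.card := by
  rw [← Set.ncard_coe_finset]
  refine Set.ncard_le_ncard ?_ (Finset.finite_toSet s)
  rintro j ⟨h0, h1, h2⟩
  exact h j h0 h1 h2

lemma lowerDensity_eq_zero_iff (m : ℕ → ℝ) (A : Set ℕ) :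
    lowerDensity m A = 0 ↔ ∀ δ : ℝ, 0 < δ → ∃ᶠ n : ℕ in atTop, (count A (m n) : ℝ) ≤ δ * n := by
  have key : ∀ (δ : ℝ) (n : ℕ), 0 < δ → 1 ≤ n →
      ((count A (m n) : ENNReal) / (n : ENNReal) ≤ ENNReal.ofReal δ ↔
        (count A (m n) : ℝ) ≤ δ * n) := by
    intro δ n hδ hn
    have hn0 : (n : ENNReal) ≠ 0 := by
      have : n ≠ 0 := by omega
      exact_mod_cast this
    rw [ENNReal.div_le_iff hn0 (ENNReal.natCast_ne_top n)]
    rw [← ENNReal.ofReal_natCast, ← ENNReal.ofReal_natCast, ← ENNReal.ofReal_mul hδ.le,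
      ENNReal.ofReal_le_ofReal_iff (by positivity)]
  constructor
  · intro h δ hδ
    by_contra hcon
    rw [not_frequently] at hcon
    have h1 : ∀ᶠ n : ℕ in atTop, ENNReal.ofReal δ ≤ (count A (m n) : ENNReal) / (n : ENNReal) := by
      filter_upwards [hcon, eventually_ge_atTop 1] with n hn h1n
      by_contra h2
      exact hn ((key δ n hδ h1n).1 (not_le.1 h2).le)
    have h2 := le_liminf_of_le (by isBoundedDefault) h1
    have h3 : ENNReal.ofReal δ ≤ lowerDensity m A := h2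
    rw [h] at h3
    have := ENNReal.ofReal_eq_zero.1 (le_antisymm h3 bot_le)
    linarith
  · intro h
    refine le_antisymm ?_ bot_le
    refine ENNReal.le_of_forall_pos_le_add ?_
    intro ε hε _
    rw [zero_add]
    have h1 : ∃ᶠ n : ℕ in atTop, (count A (m n) : ENNReal) / (n : ENNReal) ≤ (ε : ENNReal) := by
      have h2 := (h ε (by exact_mod_cast hε)).and_eventually (eventually_ge_atTop 1)
      refine h2.mono ?_
      rintro n ⟨h3, h4⟩
      have := (key ε n (by exact_mod_cast hε) h4).2 h3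
      rwa [ENNReal.ofReal_coe_nnreal] at this
    exact liminf_le_of_frequently_le' h1

lemma InR.exists_pos {m : ℕ → ℝ} (hm : InR m) :
    ∃ c : ℝ, 0 < c ∧ ∀ᶠ n : ℕ in atTop, c * n ≤ m n := by
  obtain ⟨c, hc0, hc⟩ := ENNReal.lt_iff_exists_nnreal_btwn.1 hm.liminf_pos
  refine ⟨c, by exact_mod_cast hc0, ?_⟩
  have h1 := eventually_lt_of_lt_liminf hc
  filter_upwards [h1, eventually_ge_atTop 1] with n hn h1n
  have hn0 : (n : ENNReal) ≠ 0 := by
    have : n ≠ 0 := by omega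
    exact_mod_cast this
  have hm0 : 0 ≤ m n := le_trans zero_le_one (hm.one_le n h1n)
  rw [ENNReal.lt_div_iff_mul_lt (Or.inl hn0) (Or.inl (ENNReal.natCast_ne_top n))] at hn
  rw [← ENNReal.ofReal_coe_nnreal, ← ENNReal.ofReal_natCast,
    ← ENNReal.ofReal_mul (NNReal.coe_nonneg c)] at hn
  exact ((ENNReal.ofReal_lt_ofReal_iff_of_nonneg (by positivity)).1 hn).le

/-- For `m_n = O(n)` zero lower density implies zero lower `m_n`-density. -/
lemma lowerDensity_bounded {m : ℕ → ℝ} {C : ℝ} (hC : ∀ n : ℕ, 1 ≤ n → m n ≤ C * n) {A : Set ℕ}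
    (h : lowerDensity (fun n => (n : ℝ)) A = 0) : lowerDensity m A = 0 := by
  rw [lowerDensity_eq_zero_iff] at h ⊢
  intro δ hδ
  -- a natural number bound
  obtain ⟨D, hD⟩ := exists_nat_ge C
  set E : ℕ := D + 1 with hE
  have hE1 : 1 ≤ E := by omega
  have hmE : ∀ n : ℕ, 1 ≤ n → m n ≤ E * n := by
    intro n hn
    refine (hC n hn).trans ?_
    have : C ≤ E := by rw [hE]; push_cast; linarith
    gcongr
  have hE0 : (0 : ℝ) < E := by exact_mod_cast hE1
  rw [frequently_atTop]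
  intro n₀
  obtain ⟨N, hN, hN2⟩ := frequently_atTop.1 (h (δ / (2 * E)) (by positivity)) (E * (n₀ + 1))
  refine ⟨N / E, ?_, ?_⟩
  · have : n₀ + 1 ≤ N / E := by
      rw [Nat.le_div_iff_mul_le (by omega), mul_comm]
      exact hN
    omega
  · have h1 : 1 ≤ N / E := by
      have : n₀ + 1 ≤ N / E := by
        rw [Nat.le_div_iff_mul_le (by omega), mul_comm]
        exact hN
      omega
    have h2 : E * (N / E) ≤ N := Nat.mul_div_le N E
    have h3 : m (N / E) ≤ (N : ℝ) := by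
      refine (hmE _ h1).trans ?_
      exact_mod_cast h2
    have h4 : N < E * (N / E + 1) := Nat.lt_mul_div_succ N (by omega)
    have h5 : (N : ℝ) ≤ E * ((N / E : ℕ) + 1 : ℝ) := by exact_mod_cast h4.le
    have h6 : (1 : ℝ) ≤ ((N / E : ℕ) : ℝ) := by exact_mod_cast h1
    have h7 : (count A (m (N / E)) : ℝ) ≤ count A (N : ℝ) := by
      exact_mod_cast count_mono (le_refl A) h3
    calc (count A (m (N / E)) : ℝ) ≤ count A (N : ℝ) := h7
      _ ≤ δ / (2 * E) * N := hN2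
      _ ≤ δ / (2 * E) * (E * ((N / E : ℕ) + 1 : ℝ)) := by gcongr
      _ = δ / 2 * ((N / E : ℕ) + 1 : ℝ) := by field_simp
      _ ≤ δ / 2 * (2 * ((N / E : ℕ) : ℝ)) := by
          gcongr
          linarith
      _ = δ * ((N / E : ℕ) : ℝ) := by ring

end Pool.Agent.Work.MP_890ea4_an
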