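import Pool.Agent.Work.MP_890ea4_an.Shift

set_option autoImplicit false
set_option linter.unusedSectionVars false

/-!
The exponents of the weights.
-/

namespace Pool.Agent.Work.MP_890ea4_an

open Filter Topology

/-- A fast growing sequence. -/
structure Good (L : ℕ → ℕ) : Prop where
  pos : 1 ≤ L 0
  grow : ∀ k, (k + 2) * ((k ^ 2 + k) * L k + L k) ≤ L (k + 1)

/-- The ends of the stretches. -/
def idx (L : ℕ → ℕ) (k : ℕ) : ℕ := (k ^ 2 + k) * L k

variable {L : ℕ → ℕ}

lemma Good.pos' (h : Good L) (k : ℕ) : 1 ≤ L k := by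
  induction k with
  | zero => exact h.pos
  | succ k ih =>
    refine le_trans ?_ (h.grow k)
    have : 1 ≤ (k ^ 2 + k) * L k + L k := by omega
    nlinarith

lemma Good.two_mul (h : Good L) (k : ℕ) : 2 * idx L k + 2 * L k ≤ L (k + 1) := by
  have h1 := h.grow k
  unfold idx
  have h2 : 2 * ((k ^ 2 + k) * L k + L k) ≤ (k + 2) * ((k ^ 2 + k) * L k + L k) :=
    Nat.mul_le_mul_right _ (by omega)
  linarith

lemma Good.lt (h : Good L) (k : ℕ) : L k < L (k + 1) := by
  have h1 := h.two_mul k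
  have h2 := h.pos' k
  omega

lemma Good.strictMono (h : Good L) : StrictMono L := strictMono_nat_of_lt_succ h.lt

lemma Good.idx_lt (h : Good L) (k : ℕ) : idx L k < L (k + 1) := by
  have h1 := h.two_mul k
  have h2 := h.pos' k
  omega

lemma Good.le_idx (_h : Good L) {k : ℕ} (hk : 1 ≤ k) : L k ≤ idx L k := by
  unfold idx
  exact Nat.le_mul_of_pos_left _ (by positivity)

lemma Good.idx_strictMono (h : Good L) : StrictMono (idx L) := by
  refine strictMono_nat_of_lt_succ (fun k => ?_)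
  exact (h.idx_lt k).trans_le (h.le_idx (by omega))

open Classical in
/-- The index of the block of `i`. -/
noncomputable def kap (L : ℕ → ℕ) (i : ℕ) : ℕ := Nat.findGreatest (fun k => L k ≤ i) i

/-- The exponents. -/
noncomputable def ex (L : ℕ → ℕ) (i : ℕ) : ℕ :=
  if i ≤ idx L (kap L i) then i / L (kap L i) - (kap L i) ^ 2 else 0

lemma kap_eq (h : Good L) {i k : ℕ} (h1 : L k ≤ i) (h2 : i < L (k + 1)) : kap L i = k := by
  classical
  unfold kap
  rw [Nat.findGreatest_eq_iff]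
  refine ⟨(h.strictMono.le_apply).trans h1, fun _ => h1, fun {n} hn _ hLn => ?_⟩
  have : L (k + 1) ≤ L n := h.strictMono.monotone (by omega)
  omega

lemma kap_spec (h : Good L) {i : ℕ} (hk : kap L i ≠ 0) :
    L (kap L i) ≤ i ∧ i < L (kap L i + 1) := by
  classical
  have h1 : L (kap L i) ≤ i :=
    (Nat.findGreatest_eq_iff.1 (rfl : Nat.findGreatest (fun k => L k ≤ i) i = kap L i)).2.1 hk
  refine ⟨h1, ?_⟩
  by_contra h2
  push Not at h2
  have h3 : kap L i + 1 ≤ i := (h.strictMono.le_apply).trans h2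
  have h4 : kap L i + 1 ≤ kap L i := by
    conv_rhs => unfold kap
    exact Nat.le_findGreatest h3 h2
  omega

lemma ex_eq_zero_of_kap (_h : Good L) {i : ℕ} (hk : kap L i = 0) : ex L i = 0 := by
  unfold ex
  rw [hk]
  split_ifs with h1
  · have : i = 0 := by
      unfold idx at h1
      simpa using h1
    rw [this]
    simp
  · rfl

lemma ex_eq (h : Good L) {i k : ℕ} (h1 : L k ≤ i) (h2 : i ≤ idx L k) :
    ex L i = i / L k - k ^ 2 := by
  have h3 := kap_eq h h1 (h2.trans_lt (h.idx_lt k))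
  unfold ex
  rw [h3, if_pos h2]

lemma ex_le_step (h : Good L) {i j : ℕ} (hj : kap L (i + j) = 0 ∨ j ≤ L (kap L (i + j)) ∨
    idx L (kap L (i + j)) < i + j) : ex L (i + j) ≤ ex L i + 1 := by
  by_cases hk : kap L (i + j) = 0
  · rw [ex_eq_zero_of_kap h hk]
    exact Nat.zero_le _
  by_cases hle : i + j ≤ idx L (kap L (i + j))
  swap
  · unfold ex
    rw [if_neg hle]
    exact Nat.zero_le _
  have hj' : j ≤ L (kap L (i + j)) := by
    rcases hj with hj | hj | hj
    · exact absurd hj hk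
    · exact hj
    · omega
  obtain ⟨h1, h2⟩ := kap_spec h hk
  set k := kap L (i + j) with hkdef
  have hLk := h.pos' k
  rw [ex_eq h h1 hle]
  have hdiv : (i + j) / L k ≤ i / L k + 1 := by
    calc (i + j) / L k ≤ (i + L k) / L k := Nat.div_le_div_right (by omega)
      _ = i / L k + 1 := Nat.add_div_right _ (by omega)
  by_cases hi : L k ≤ i
  · rw [ex_eq h hi (by omega)]
    omega
  · have h3 : i / L k = 0 := Nat.div_eq_of_lt (by omega)
    have h4 : 1 ≤ k ^ 2 := Nat.one_le_pow _ _ (by omega)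
    omega

lemma ex_succ (h : Good L) (i : ℕ) : ex L (i + 1) ≤ ex L i + 1 :=
  ex_le_step h (Or.inr (Or.inl (h.pos' _)))

lemma ex_step (h : Good L) {K j : ℕ} (h1 : idx L K < j) (h2 : j ≤ L (K + 1)) (i : ℕ) :
    ex L (i + j) ≤ ex L i + 1 := by
  refine ex_le_step h ?_
  by_cases hk : K + 1 ≤ kap L (i + j)
  · right; left
    exact h2.trans (h.strictMono.monotone hk)
  · right; right
    have : idx L (kap L (i + j)) ≤ idx L K := h.idx_strictMono.monotone (by omega)
    omega

lemma ex_idx (h : Good L) {K : ℕ} (hK : 1 ≤ K) : ex L (idx L K) = K := by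
  rw [ex_eq h (h.le_idx hK) (le_refl _)]
  unfold idx
  rw [Nat.mul_div_cancel _ (h.pos' K)]
  omega

lemma ex_zero (h : Good L) {K i : ℕ} (h1 : L K ≤ i) (h2 : i < K ^ 2 * L K) :
    ex L i = 0 := by
  have h3 : i ≤ idx L K := by
    unfold idx
    have : K ^ 2 * L K ≤ (K ^ 2 + K) * L K := Nat.mul_le_mul_right _ (by omega)
    omega
  rw [ex_eq h h1 h3]
  have h4 : i / L K < K ^ 2 := (Nat.div_lt_iff_lt_mul (h.pos' K)).2 h2
  omega

/-- The existence of the sequence. -/
lemma exists_good {m : ℕ → ℝ} (hunb : ∀ C B : ℕ, ∃ n, B ≤ n ∧ (C : ℝ) * n ≤ m n) :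
    ∃ L : ℕ → ℕ, Good L ∧ ∀ k, (2 * (idx L k : ℝ) + 1) ≤ m (L k) := by
  choose f hf1 hf2 using hunb
  obtain ⟨L, h0, hs⟩ : ∃ L : ℕ → ℕ, L 0 = f 1 1 ∧ ∀ k, L (k + 1) =
      f (2 * ((k + 1) ^ 2 + (k + 1)) + 1) ((k + 2) * ((k ^ 2 + k) * L k + L k) + 1) :=
    ⟨fun k => Nat.rec (f 1 1) (fun k Lk => f (2 * ((k + 1) ^ 2 + (k + 1)) + 1)
      ((k + 2) * ((k ^ 2 + k) * Lk + Lk) + 1)) k, rfl, fun _ => rfl⟩
  have hpos : ∀ k, 1 ≤ L k := by
    intro k
    cases k with
    | zero => rw [h0]; exact hf1 1 1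
    | succ k =>
      rw [hs]
      exact le_trans (by omega) (hf1 _ _)
  refine ⟨L, ⟨hpos 0, fun k => ?_⟩, fun k => ?_⟩
  · rw [hs]
    exact le_trans (by omega) (hf1 _ _)
  · have key : ((2 * (k ^ 2 + k) + 1 : ℕ) : ℝ) * ((L k : ℕ) : ℝ) ≤ m (L k) := by
      cases k with
      | zero =>
        have := hf2 1 1
        rw [h0]
        simpa using this
      | succ k =>
        rw [hs]
        exact hf2 _ _
    refine le_trans ?_ key
    have h1 : (1 : ℝ) ≤ L k := by exact_mod_cast hpos k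
    unfold idx
    push_cast
    nlinarith

end Pool.Agent.Work.MP_890ea4_an
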