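import Pool.Agent.Work.MP_890ea4_an.Exps

set_option autoImplicit false
set_option linter.unusedSectionVars false

/-!
The counterexample.
-/

namespace Pool.Agent.Work.MP_890ea4_an

open Filter Topology

variable {𝕜 : Type} [RCLike 𝕜] {L : ℕ → ℕ}

/-- The operator. -/
noncomputable def Top (𝕜 : Type) [RCLike 𝕜] (h : Good L) : L1 𝕜 →L[𝕜] L1 𝕜 :=
  Tsh 𝕜 (ex L) (ex_succ h)

/-- All orbits become small on the blocks `(idx k, L (k+1)]`. -/
lemma small_orbit (h : Good L) (z : L1 𝕜) {σ : ℝ} (hσ : 0 < σ) :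
    ∃ J : ℕ, ∀ k j : ℕ, idx L k < j → j ≤ L (k + 1) → J ≤ j → ‖(Top 𝕜 h)^[j] z‖ < σ := by
  have h1 : Tendsto (fun j : ℕ => ∑' i, ‖z (i + j)‖) atTop (𝓝 0) :=
    tendsto_sum_nat_add (fun i => ‖z i‖)
  have h2 : ∀ᶠ j : ℕ in atTop, ∑' i, ‖z (i + j)‖ < σ / 2 := h1.eventually_lt_const (by positivity)
  obtain ⟨J, hJ⟩ := eventually_atTop.1 h2
  refine ⟨J, fun k j hj1 hj2 hj3 => ?_⟩
  have h3 := norm_iterate_le (ex_succ h) (ex_step h hj1 hj2) z
  have h4 := hJ j hj3
  have h5 : ‖(Top 𝕜 h)^[j] z‖ ≤ 2 * ∑' i, ‖z (i + j)‖ := h3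
  linarith

/-- The irregular vector, as a function. -/
noncomputable def xf (𝕜 : Type) [RCLike 𝕜] (L : ℕ → ℕ) : ℕ → 𝕜 :=
  Function.extend (idx L) (fun k => (((3 / 4 : ℝ) ^ k : ℝ) : 𝕜)) 0

lemma xf_summable (h : Good L) : Summable (fun i => ‖xf 𝕜 L i‖) := by
  rw [← h.idx_strictMono.injective.summable_iff]
  · have : (fun i => ‖xf 𝕜 L i‖) ∘ idx L = fun k => (3 / 4 : ℝ) ^ k := by
      funext k
      simp only [Function.comp]
      unfold xf
      rw [h.idx_strictMono.injective.extend_apply, RCLike.norm_ofReal, abs_of_nonneg (by positivity)]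
    rw [this]
    exact summable_geometric_of_lt_one (by norm_num) (by norm_num)
  · intro i hi
    unfold xf
    rw [Function.extend_apply' _ _ _ (fun ⟨k, hk⟩ => hi ⟨k, hk⟩)]
    simp

/-- The irregular vector. -/
noncomputable def xv (𝕜 : Type) [RCLike 𝕜] (h : Good L) : L1 𝕜 := ⟨xf 𝕜 L, memℓp_one (xf_summable h)⟩

lemma xv_idx (h : Good L) (k : ℕ) : ‖(xv 𝕜 h) (idx L k)‖ = (3 / 4 : ℝ) ^ k := by
  change ‖xf 𝕜 L (idx L k)‖ = _
  unfold xf
  rw [h.idx_strictMono.injective.extend_apply, RCLike.norm_ofReal, abs_of_nonneg (by positivity)]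

lemma xv_ne_zero (h : Good L) : xv 𝕜 h ≠ 0 := by
  intro h0
  have h1 := xv_idx (𝕜 := 𝕜) h 0
  rw [h0] at h1
  change ‖(0 : 𝕜)‖ = _ at h1
  simp at h1

lemma large_orbit (h : Good L) {K j : ℕ} (hK : 1 ≤ K) (h1 : K * L K < j)
    (h2 : j + L K ≤ idx L K) : (3 / 2 : ℝ) ^ K ≤ ‖(Top 𝕜 h)^[j] (xv 𝕜 h)‖ := by
  have h3 := le_norm_iterate (ex_succ h) (idx L K - j) j (xv 𝕜 h)
  have h4 : idx L K - j + j = idx L K := by omega
  have h5 : ex L (idx L K - j) = 0 := by
    refine ex_zero h (K := K) (by omega) ?_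
    have : idx L K = K ^ 2 * L K + K * L K := by unfold idx; ring
    omega
  rw [h4, xv_idx] at h3
  refine le_trans (le_of_eq ?_) h3
  unfold wt
  rw [h4, h5, ex_idx h hK, pow_zero, div_one, ← mul_pow]
  norm_num

/-- The positive part. -/
theorem distChaotic (h : Good L) : IsDistChaotic (fun n => (n : ℝ)) (Top 𝕜 h) := by
  classical
  refine ⟨Set.range (fun t : ℝ => (t : 𝕜) • xv 𝕜 h), ?_, 1, one_pos, ?_⟩
  · intro hc
    have hinj : Function.Injective (fun t : ℝ => (t : 𝕜) • xv 𝕜 h) := by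
      intro t s hts
      have h1 : ((t : 𝕜) - (s : 𝕜)) • xv 𝕜 h = 0 := by
        rw [sub_smul]
        exact sub_eq_zero.2 hts
      have h2 := (smul_eq_zero.1 h1).resolve_right (xv_ne_zero h)
      exact_mod_cast sub_eq_zero.1 h2
    have h2 : (Set.univ : Set ℝ).Countable := by
      rw [← Set.image_univ] at hc
      exact Set.countable_of_injective_of_countable_image hinj.injOn hc
    exact Cardinal.not_countable_real h2
  · rintro ε hε x ⟨t, rfl⟩ y ⟨s, rfl⟩ hxy
    have hts : t ≠ s := by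
      rintro rfl
      exact hxy rfl
    have hpos : 0 < |t - s| := abs_pos.2 (sub_ne_zero.2 hts)
    have hdist : ∀ j : ℕ, dist ((Top 𝕜 h)^[j] ((t : 𝕜) • xv 𝕜 h)) ((Top 𝕜 h)^[j] ((s : 𝕜) • xv 𝕜 h))
        = |t - s| * ‖(Top 𝕜 h)^[j] (xv 𝕜 h)‖ := by
      intro j
      have e1 := Tsh_smul (ex_succ h) j (t : 𝕜) (xv 𝕜 h)
      have e2 := Tsh_smul (ex_succ h) j (s : 𝕜) (xv 𝕜 h)
      unfold Top
      rw [e1, e2, dist_eq_norm, ← sub_smul, norm_smul, ← RCLike.ofReal_sub, RCLike.norm_ofReal]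
    simp only [hdist]
    constructor
    · rw [lowerDensity_eq_zero_iff]
      intro δ hδ
      rw [frequently_atTop]
      intro n₀
      -- choose K
      have hev1 : ∀ᶠ K : ℕ in atTop, 1 / |t - s| ≤ (3 / 2 : ℝ) ^ K :=
        (tendsto_pow_atTop_atTop_of_one_lt (by norm_num : (1 : ℝ) < 3 / 2)).eventually_ge_atTop _
      have hev2 : ∀ᶠ K : ℕ in atTop, 3 / δ ≤ (K : ℝ) :=
        tendsto_natCast_atTop_atTop.eventually_ge_atTop _
      obtain ⟨K, hK1, hK2, hK3, hK4⟩ :=
        (hev1.and (hev2.and ((eventually_ge_atTop 1).and (eventually_ge_atTop n₀)))).exists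
      refine ⟨idx L K, hK4.trans h.idx_strictMono.le_apply, ?_⟩
      have hcard : count {j : ℕ | |t - s| * ‖(Top 𝕜 h)^[j] (xv 𝕜 h)‖ < 1} ((idx L K : ℕ) : ℝ) ≤
          ((Finset.Ico 1 (K * L K + 1)) ∪ (Finset.Ioc (idx L K - L K) (idx L K))).card := by
        refine count_le (fun j hj hj1 hj2 => ?_)
        have hj2' : j ≤ idx L K := by exact_mod_cast hj2
        rw [Finset.mem_union, Finset.mem_Ico, Finset.mem_Ioc]
        by_contra hcon
        push Not at hcon
        have h1 : K * L K < j := by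
          by_contra h2
          have := hcon.1 hj1
          omega
        have h2 : j + L K ≤ idx L K := by
          by_contra h3
          have := hcon.2 (by omega)
          omega
        have h3 := large_orbit (𝕜 := 𝕜) h hK3 h1 h2
        have h4 : 1 / |t - s| ≤ ‖(Top 𝕜 h)^[j] (xv 𝕜 h)‖ := hK1.trans h3
        have h5 : |t - s| * ‖(Top 𝕜 h)^[j] (xv 𝕜 h)‖ < 1 := hj
        rw [div_le_iff₀ hpos] at h4
        linarith
      have hcard2 : ((Finset.Ico 1 (K * L K + 1)) ∪
          (Finset.Ioc (idx L K - L K) (idx L K))).card ≤ K * L K + L K := by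
        refine (Finset.card_union_le _ _).trans ?_
        rw [Nat.card_Ico, Nat.card_Ioc]
        omega
      have h6 : (count {j : ℕ | |t - s| * ‖(Top 𝕜 h)^[j] (xv 𝕜 h)‖ < 1} ((idx L K : ℕ) : ℝ) : ℝ) ≤
          K * L K + L K := by
        exact_mod_cast hcard.trans hcard2
      refine h6.trans ?_
      have hK3' : (1 : ℝ) ≤ K := by exact_mod_cast hK3
      have h7 : 3 ≤ δ * K := by
        rw [div_le_iff₀ hδ] at hK2
        linarith
      have hL : (0 : ℝ) ≤ L K := Nat.cast_nonneg _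
      unfold idx
      push_cast
      nlinarith [mul_nonneg hL (by linarith : (0 : ℝ) ≤ δ * K - 3),
        mul_nonneg (mul_nonneg hL (by linarith : (0 : ℝ) ≤ δ * K - 3)) (by linarith : (0 : ℝ) ≤ K),
        mul_nonneg hL (by linarith : (0 : ℝ) ≤ (K : ℝ) - 1)]
    · rw [lowerDensity_eq_zero_iff]
      intro δ hδ
      rw [frequently_atTop]
      intro n₀
      obtain ⟨J, hJ⟩ := small_orbit h (xv 𝕜 h) (div_pos hε hpos)
      have hev1 : ∀ᶠ k : ℕ in atTop, 2 / δ ≤ (k : ℝ) :=
        tendsto_natCast_atTop_atTop.eventually_ge_atTop _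
      have hev2 : ∀ᶠ k : ℕ in atTop, 2 * (J : ℝ) / δ ≤ (k : ℝ) :=
        tendsto_natCast_atTop_atTop.eventually_ge_atTop _
      obtain ⟨k, hk1, hk2, hk3⟩ := (hev1.and (hev2.and (eventually_ge_atTop n₀))).exists
      have hkL : k + 1 ≤ L (k + 1) := h.strictMono.le_apply
      refine ⟨L (k + 1), by omega, ?_⟩
      have hcard : count {j : ℕ | ε ≤ |t - s| * ‖(Top 𝕜 h)^[j] (xv 𝕜 h)‖} ((L (k + 1) : ℕ) : ℝ) ≤
          ((Finset.Ico 1 (idx L k + 1)) ∪ (Finset.range J)).card := by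
        refine count_le (fun j hj hj1 hj2 => ?_)
        have hj2' : j ≤ L (k + 1) := by exact_mod_cast hj2
        rw [Finset.mem_union, Finset.mem_Ico, Finset.mem_range]
        by_contra hcon
        push Not at hcon
        have h1 : idx L k < j := by
          have := hcon.1 hj1
          omega
        have h3 := hJ k j h1 hj2' hcon.2
        have h5 : ε ≤ |t - s| * ‖(Top 𝕜 h)^[j] (xv 𝕜 h)‖ := hj
        rw [lt_div_iff₀ hpos] at h3
        linarith
      have hcard2 : ((Finset.Ico 1 (idx L k + 1)) ∪ (Finset.range J)).card ≤ idx L k + J := by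
        refine (Finset.card_union_le _ _).trans ?_
        rw [Nat.card_Ico, Finset.card_range]
        omega
      have h6 : (count {j : ℕ | ε ≤ |t - s| * ‖(Top 𝕜 h)^[j] (xv 𝕜 h)‖}
          ((L (k + 1) : ℕ) : ℝ) : ℝ) ≤ idx L k + J := by
        exact_mod_cast hcard.trans hcard2
      refine h6.trans ?_
      have h7 : ((k : ℝ) + 2) * (idx L k + L k) ≤ L (k + 1) := by
        have := h.grow k
        have h8 : (k + 2) * (idx L k + L k) ≤ L (k + 1) := this
        exact_mod_cast h8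
      have hkL' : (k : ℝ) + 1 ≤ L (k + 1) := by exact_mod_cast hkL
      have h8 : (J : ℝ) ≤ δ / 2 * L (k + 1) := by
        rw [div_le_iff₀ hδ] at hk2
        nlinarith
      have h9 : (idx L k : ℝ) ≤ δ / 2 * L (k + 1) := by
        rw [div_le_iff₀ hδ] at hk1
        have h10 : (0 : ℝ) ≤ idx L k := Nat.cast_nonneg _
        have h11 : (0 : ℝ) ≤ L k := Nat.cast_nonneg _
        have h12 : (0 : ℝ) ≤ k := Nat.cast_nonneg _
        have h13 : (k : ℝ) * idx L k ≤ L (k + 1) := by nlinarith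
        nlinarith
      linarith

/-- The negative part. -/
theorem not_distChaotic (h : Good L) {m : ℕ → ℝ} (hm : InR m)
    (hL : ∀ k, (2 * (idx L k : ℝ) + 1) ≤ m (L k)) : ¬ IsDistChaotic m (Top 𝕜 h) := by
  rintro ⟨S, hS, σ, hσ, hSσ⟩
  have hnt : S.Nontrivial := by
    rw [← Set.not_subsingleton_iff]
    intro hsub
    exact hS hsub.countable
  obtain ⟨x, hx, y, hy, hxy⟩ := hnt
  have h1 := (hSσ 1 one_pos x hx y hy hxy).1
  obtain ⟨J, hJ⟩ := small_orbit h (x - y) hσ
  obtain ⟨c, hc, hcm⟩ := hm.exists_pos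
  rw [lowerDensity_eq_zero_iff] at h1
  set A : Set ℕ := {j : ℕ | dist ((Top 𝕜 h)^[j] x) ((Top 𝕜 h)^[j] y) < σ} with hA
  have hAmem : ∀ k j : ℕ, idx L k < j → j ≤ L (k + 1) → J ≤ j → j ∈ A := by
    intro k j h2 h3 h4
    change dist ((Top 𝕜 h)^[j] x) ((Top 𝕜 h)^[j] y) < σ
    rw [dist_eq_norm]
    have e := Tsh_sub (ex_succ h) j x y
    have e2 : (Top 𝕜 h)^[j] x - (Top 𝕜 h)^[j] y = (Top 𝕜 h)^[j] (x - y) := e
    rw [e2]
    exact hJ k j h2 h3 h4
  set d : ℝ := min (c / 8) (1 / 8) with hd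
  have hd0 : 0 < d := by positivity
  have hev : ∀ᶠ n : ℕ in atTop, d * n < count A (m n) := by
    have hbig : ∀ᶠ n : ℕ in atTop, 8 * ((J : ℝ) + 2) / c ≤ (n : ℝ) :=
      tendsto_natCast_atTop_atTop.eventually_ge_atTop _
    have hbig2 : ∀ᶠ n : ℕ in atTop, 8 * ((J : ℝ) + 2) ≤ (n : ℝ) :=
      tendsto_natCast_atTop_atTop.eventually_ge_atTop _
    filter_upwards [hcm, hbig, hbig2, eventually_ge_atTop 1] with n hn1 hn2 hn3 hn4
    have hm0 : 0 ≤ m n := le_trans zero_le_one (hm.one_le n hn4)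
    set N : ℕ := ⌊m n⌋₊ with hN
    have hNle : (N : ℝ) ≤ m n := Nat.floor_le hm0
    have hNlt : m n < N + 1 := Nat.lt_floor_add_one _
    have hn0 : (1 : ℝ) ≤ n := by exact_mod_cast hn4
    -- the block of N
    have hex : ∃ k, N < 2 * idx L k := by
      refine ⟨N + 1, ?_⟩
      have := h.idx_strictMono.le_apply (x := N + 1)
      omega
    classical
    obtain ⟨k, hk1, hk2⟩ : ∃ k, 2 * idx L k ≤ N ∧ N < 2 * idx L (k + 1) := by
      have hf := Nat.find_spec hex
      have hne : Nat.find hex ≠ 0 := by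
        intro h0
        rw [h0] at hf
        unfold idx at hf
        simp at hf
      refine ⟨Nat.find hex - 1, ?_, ?_⟩
      · have := Nat.find_min hex (m := Nat.find hex - 1) (by omega)
        omega
      · have : Nat.find hex - 1 + 1 = Nat.find hex := by omega
        rw [this]
        exact hf
    have hdc : d * n ≤ c / 8 * n := by
      gcongr
      exact min_le_left _ _
    have hd1 : d * n ≤ 1 / 8 * n := by
      gcongr
      exact min_le_right _ _
    have hJn : 8 * ((J : ℝ) + 2) ≤ c * n := by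
      rw [div_le_iff₀ hc] at hn2
      linarith
    by_cases hcase : N ≤ L (k + 1)
    · have h2 : (N + 1) - (max (idx L k) J + 1) ≤ count A (m n) := by
        refine le_count (by omega) (fun j hj1 hj2 => ?_) (by push_cast; linarith)
        exact hAmem k j (by omega) (by omega) (by omega)
      have h3 : N ≤ count A (m n) + idx L k + J := by omega
      have h4 : (N : ℝ) ≤ count A (m n) + idx L k + J := by exact_mod_cast h3
      have h5 : 2 * (idx L k : ℝ) ≤ N := by exact_mod_cast hk1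
      nlinarith
    · push Not at hcase
      have h2 : (L (k + 1) + 1) - (max (idx L k) J + 1) ≤ count A (m n) := by
        refine le_count (by omega) (fun j hj1 hj2 => ?_) ?_
        · exact hAmem k j (by omega) (by omega) (by omega)
        · have : ((L (k + 1) : ℕ) : ℝ) ≤ N := by exact_mod_cast hcase.le
          push_cast
          linarith
      have h3 : L (k + 1) ≤ count A (m n) + idx L k + J := by omega
      have h4 : (L (k + 1) : ℝ) ≤ count A (m n) + idx L k + J := by exact_mod_cast h3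
      have h5 : 2 * idx L k ≤ L (k + 1) := by
        have := h.two_mul k
        omega
      have h5' : 2 * (idx L k : ℝ) ≤ L (k + 1) := by exact_mod_cast h5
      have h6 : n < L (k + 1) := by
        by_contra h7
        push Not at h7
        have h8 := hm.mono (L (k + 1)) n (h.pos' _) h7
        have h9 := hL (k + 1)
        have h10 : (N : ℝ) < 2 * idx L (k + 1) := by exact_mod_cast hk2
        linarith
      have h6' : (n : ℝ) ≤ L (k + 1) := by exact_mod_cast h6.le
      nlinarith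
  obtain ⟨n, hn1, hn2⟩ := ((h1 d hd0).and_eventually hev).exists
  linarith

/-- Unbounded ratios along arbitrarily large indices. -/
lemma unbounded {m : ℕ → ℝ} (h : ∀ C : ℝ, ∃ n : ℕ, 1 ≤ n ∧ C * n < m n) (C B : ℕ) :
    ∃ n, B ≤ n ∧ (C : ℝ) * n ≤ m n := by
  set D : ℝ := C + ∑ i ∈ Finset.range B, |m i| with hD
  obtain ⟨n, hn1, hn2⟩ := h D
  have hn0 : (1 : ℝ) ≤ n := by exact_mod_cast hn1
  have hsum : 0 ≤ ∑ i ∈ Finset.range B, |m i| := Finset.sum_nonneg (fun _ _ => abs_nonneg _)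
  refine ⟨n, ?_, ?_⟩
  · by_contra hlt
    push Not at hlt
    have h1 : |m n| ≤ ∑ i ∈ Finset.range B, |m i| :=
      Finset.single_le_sum (f := fun i => |m i|) (fun _ _ => abs_nonneg _)
        (Finset.mem_range.2 hlt)
    have h2 := le_abs_self (m n)
    have h3 : (0 : ℝ) ≤ C := Nat.cast_nonneg _
    nlinarith
  · have h3 : (0 : ℝ) ≤ C := Nat.cast_nonneg _
    nlinarith

theorem main_theorem (𝕜 : Type) [RCLike 𝕜] (m : ℕ → ℝ) (hm : InR m) :
    (∃ (X : Type) (_ : NormedAddCommGroup X) (_ : NormedSpace 𝕜 X) (_ : CompleteSpace X)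
      (T : X →L[𝕜] X), HasDenseNullOrbits T ∧ IsDistChaotic (fun n => (n : ℝ)) T ∧
        ¬ IsDistChaotic m T) ↔
      ∀ C : ℝ, ∃ n : ℕ, 1 ≤ n ∧ C * n < m n := by
  constructor
  · rintro ⟨X, _, _, _, T, _, hT, hT'⟩
    by_contra hcon
    push Not at hcon
    obtain ⟨C, hC⟩ := hcon
    apply hT'
    obtain ⟨S, hS, σ, hσ, hSσ⟩ := hT
    refine ⟨S, hS, σ, hσ, fun ε hε x hx y hy hxy => ?_⟩
    obtain ⟨h1, h2⟩ := hSσ ε hε x hx y hy hxy
    exact ⟨lowerDensity_bounded hC h1, lowerDensity_bounded hC h2⟩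
  · intro hunb
    obtain ⟨L, hgood, hL⟩ := exists_good (unbounded hunb)
    exact ⟨L1 𝕜, inferInstance, inferInstance, inferInstance, Top 𝕜 hgood,
      hasDenseNullOrbits _, distChaotic hgood, not_distChaotic hgood hm hL⟩

end Pool.Agent.Work.MP_890ea4_an
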