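import Pool.Agent.Work.MP_890ea4_an.Density

set_option autoImplicit false
set_option linter.unusedSectionVars false

/-!
Weighted backward shifts on `ℓ¹`.
-/

namespace Pool.Agent.Work.MP_890ea4_an

open Filter Topology

/-- The Banach space `ℓ¹`. -/
abbrev L1 (𝕜 : Type) [RCLike 𝕜] : Type := lp (fun _ : ℕ => 𝕜) 1

variable {𝕜 : Type} [RCLike 𝕜]

lemma l1_summable (x : L1 𝕜) : Summable (fun i => ‖x i‖) := by
  have := (lp.memℓp x).summable (by simp)
  simpa using this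

lemma l1_norm (x : L1 𝕜) : ‖x‖ = ∑' i, ‖x i‖ := by
  rw [lp.norm_eq_tsum_rpow (by simp)]
  simp

lemma memℓp_one {f : ℕ → 𝕜} (h : Summable (fun i => ‖f i‖)) : Memℓp f 1 := by
  refine memℓp_gen ?_
  simpa using h

lemma norm_coord_le (x : L1 𝕜) (i : ℕ) : ‖x i‖ ≤ ‖x‖ := by
  rw [l1_norm]
  exact (l1_summable x).le_tsum i (fun j _ => norm_nonneg _)

/-- The weight `2^{e(i+1)} / 2^{e(i)}`. -/
noncomputable def wt (e : ℕ → ℕ) (i j : ℕ) : ℝ := 2 ^ e (i + j) / 2 ^ e i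

lemma wt_nonneg (e : ℕ → ℕ) (i j : ℕ) : 0 ≤ wt e i j := by
  unfold wt; positivity

lemma wt_le {e : ℕ → ℕ} {i j : ℕ} (h : e (i + j) ≤ e i + 1) : wt e i j ≤ 2 := by
  unfold wt
  rw [div_le_iff₀ (by positivity)]
  calc (2 : ℝ) ^ e (i + j) ≤ 2 ^ (e i + 1) := pow_le_pow_right₀ one_le_two h
    _ = 2 * 2 ^ e i := by rw [pow_succ, mul_comm]

lemma shift_bound {e : ℕ → ℕ} (he : ∀ i, e (i + 1) ≤ e i + 1) (x : L1 𝕜) (i : ℕ) :
    ‖((wt e i 1 : ℝ) : 𝕜) * x (i + 1)‖ ≤ 2 * ‖x (i + 1)‖ := by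
  rw [norm_mul, RCLike.norm_ofReal, abs_of_nonneg (wt_nonneg e i 1)]
  exact mul_le_mul_of_nonneg_right (wt_le (he i)) (norm_nonneg _)

lemma shift_summable {e : ℕ → ℕ} (he : ∀ i, e (i + 1) ≤ e i + 1) (x : L1 𝕜) :
    Summable (fun i => ‖((wt e i 1 : ℝ) : 𝕜) * x (i + 1)‖) := by
  refine Summable.of_nonneg_of_le (fun _ => norm_nonneg _) (shift_bound he x) ?_
  exact ((summable_nat_add_iff 1).2 (l1_summable x)).mul_left 2

/-- The weighted backward shift. -/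
noncomputable def Tsh (𝕜 : Type) [RCLike 𝕜] (e : ℕ → ℕ) (he : ∀ i, e (i + 1) ≤ e i + 1) :
    L1 𝕜 →L[𝕜] L1 𝕜 :=
  LinearMap.mkContinuous
    { toFun := fun x => ⟨fun i => ((wt e i 1 : ℝ) : 𝕜) * x (i + 1), memℓp_one (shift_summable he x)⟩
      map_add' := by
        intro x y
        refine lp.ext (funext fun i => ?_)
        change ((wt e i 1 : ℝ) : 𝕜) * (x (i + 1) + y (i + 1)) =
          ((wt e i 1 : ℝ) : 𝕜) * x (i + 1) + ((wt e i 1 : ℝ) : 𝕜) * y (i + 1)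
        ring
      map_smul' := by
        intro c x
        refine lp.ext (funext fun i => ?_)
        change ((wt e i 1 : ℝ) : 𝕜) * (c * x (i + 1)) = c * (((wt e i 1 : ℝ) : 𝕜) * x (i + 1))
        ring } 2
    (by
      intro x
      rw [l1_norm]
      change ∑' i, ‖((wt e i 1 : ℝ) : 𝕜) * x (i + 1)‖ ≤ 2 * ‖x‖
      rw [l1_norm]
      calc ∑' i, ‖((wt e i 1 : ℝ) : 𝕜) * x (i + 1)‖ ≤ ∑' i, 2 * ‖x (i + 1)‖ :=
            (shift_summable he x).tsum_le_tsum (shift_bound he x)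
              (((summable_nat_add_iff 1).2 (l1_summable x)).mul_left 2)
        _ = 2 * ∑' i, ‖x (i + 1)‖ := tsum_mul_left
        _ ≤ 2 * ∑' i, ‖x i‖ := by
            refine mul_le_mul_of_nonneg_left ?_ zero_le_two
            rw [(l1_summable x).tsum_eq_zero_add]
            exact le_add_of_nonneg_left (norm_nonneg _))

variable {e : ℕ → ℕ} (he : ∀ i, e (i + 1) ≤ e i + 1)

lemma Tsh_apply (x : L1 𝕜) (i : ℕ) : (Tsh 𝕜 e he x) i = ((wt e i 1 : ℝ) : 𝕜) * x (i + 1) := rfl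

lemma Tsh_iterate (j : ℕ) (x : L1 𝕜) (i : ℕ) :
    ((Tsh 𝕜 e he)^[j] x) i = ((wt e i j : ℝ) : 𝕜) * x (i + j) := by
  induction j generalizing x with
  | zero => simp [wt]
  | succ j ih =>
    rw [Function.iterate_succ_apply, ih, Tsh_apply, ← mul_assoc]
    have h1 : wt e i j * wt e (i + j) 1 = wt e i (j + 1) := by
      unfold wt
      rw [add_assoc]
      have : (2 : ℝ) ^ e (i + j) ≠ 0 := by positivity
      field_simp
    rw [← RCLike.ofReal_mul, h1, add_assoc]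

lemma Tsh_sub (j : ℕ) (x y : L1 𝕜) :
    (Tsh 𝕜 e he)^[j] x - (Tsh 𝕜 e he)^[j] y = (Tsh 𝕜 e he)^[j] (x - y) := by
  refine lp.ext (funext fun i => ?_)
  change ((Tsh 𝕜 e he)^[j] x) i - ((Tsh 𝕜 e he)^[j] y) i = _
  rw [Tsh_iterate, Tsh_iterate, Tsh_iterate, ← mul_sub]
  rfl

lemma Tsh_smul (j : ℕ) (c : 𝕜) (x : L1 𝕜) :
    (Tsh 𝕜 e he)^[j] (c • x) = c • (Tsh 𝕜 e he)^[j] x := by
  refine lp.ext (funext fun i => ?_)
  rw [Tsh_iterate]
  change _ = c * ((Tsh 𝕜 e he)^[j] x) i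
  rw [Tsh_iterate]
  change ((wt e i j : ℝ) : 𝕜) * (c * x (i + j)) = _
  ring

/-- If the exponents grow by at most one over steps of length `j` from index `j` on, the iterate is
bounded by twice the tail of the vector. -/
lemma norm_iterate_le {j : ℕ} (h : ∀ i, e (i + j) ≤ e i + 1) (x : L1 𝕜) :
    ‖(Tsh 𝕜 e he)^[j] x‖ ≤ 2 * ∑' i, ‖x (i + j)‖ := by
  have hs : Summable (fun i => ‖x (i + j)‖) := (summable_nat_add_iff j).2 (l1_summable x)
  rw [l1_norm, ← tsum_mul_left]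
  refine (l1_summable _).tsum_le_tsum (fun i => ?_) (hs.mul_left 2)
  rw [Tsh_iterate, norm_mul, RCLike.norm_ofReal, abs_of_nonneg (wt_nonneg e i j)]
  exact mul_le_mul_of_nonneg_right (wt_le (h i)) (norm_nonneg _)

/-- Lower bound by a coordinate. -/
lemma le_norm_iterate (i j : ℕ) (x : L1 𝕜) :
    wt e i j * ‖x (i + j)‖ ≤ ‖(Tsh 𝕜 e he)^[j] x‖ := by
  refine le_trans (le_of_eq ?_) (norm_coord_le _ i)
  rw [Tsh_iterate, norm_mul, RCLike.norm_ofReal, abs_of_nonneg (wt_nonneg e i j)]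

/-- The finitely supported vectors have null orbits and are dense. -/
lemma hasDenseNullOrbits : HasDenseNullOrbits (Tsh 𝕜 e he) := by
  refine ⟨{ carrier := {x | ∃ M, ∀ i, M ≤ i → x i = 0}
            add_mem' := ?_
            zero_mem' := ⟨0, fun i _ => rfl⟩
            smul_mem' := ?_ }, ?_, ?_⟩
  · rintro x y ⟨M, hM⟩ ⟨N, hN⟩
    refine ⟨max M N, fun i hi => ?_⟩
    change x i + y i = 0
    rw [hM i (le_of_max_le_left hi), hN i (le_of_max_le_right hi), add_zero]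
  · rintro c x ⟨M, hM⟩
    refine ⟨M, fun i hi => ?_⟩
    change c * x i = 0
    rw [hM i hi, mul_zero]
  · intro x
    have h := lp.hasSum_single (p := 1) (by simp) x
    refine mem_closure_of_tendsto h (Eventually.of_forall (fun s => ?_))
    obtain ⟨M, hM⟩ := s.exists_nat_subset_range
    refine ⟨M, fun i hi => ?_⟩
    rw [lp.coeFn_sum, Finset.sum_apply]
    refine Finset.sum_eq_zero (fun j hj => ?_)
    have h1 : j < M := Finset.mem_range.1 (hM hj)
    exact lp.single_apply_ne _ _ _ (by omega)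
  · rintro x ⟨M, hM⟩
    refine tendsto_const_nhds.congr' ?_
    filter_upwards [eventually_ge_atTop M] with j hj
    refine lp.ext (funext fun i => ?_)
    rw [Tsh_iterate, hM (i + j) (by omega), mul_zero]
    rfl

end Pool.Agent.Work.MP_890ea4_an
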